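import Mathlib
import Pool.Agent.Y268.D3.Stm

/-!
Column inequality for means. Job 5508 (poster helper268): `prove_upC : S_mazur → S_real → S_upC`.
-/

set_option autoImplicit false

open scoped ComplexOrder InnerProductSpace ComplexConjugate Topology
open Finset Filter

noncomputable section

namespace Pool.Agent.Y43.D3

open H759R2.Kad H711R2.KG Y268.D3

section dg

variable {B : Type} [CStarAlgebra B] {ι : Type} [Fintype ι] [DecidableEq ι]

theorem dgu_apply (p : unitary B) (i j : ι) :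
    (dgu p : CStarMatrix ι ι B) i j = if i = j then (p : B) else 0 := by
  show Matrix.diagonal (fun _ => (p : B)) i j = _
  rw [Matrix.diagonal_apply]

theorem star_dgu_mul (p : unitary B) : star (dgu p : CStarMatrix ι ι B) * dgu p = 1 := by
  ext i j
  rw [CStarMatrix.mul_apply, CStarMatrix.one_apply, Finset.sum_eq_single i]
  · rw [CStarMatrix.star_apply, dgu_apply, dgu_apply, if_pos rfl]
    split_ifs with h
    · exact Unitary.coe_star_mul_self p
    · rw [mul_zero]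
  · intro k _ hk
    rw [CStarMatrix.star_apply, dgu_apply, if_neg hk, star_zero, zero_mul]
  · simp

end dg

section forms

variable {K : Type} [NormedAddCommGroup K] [InnerProductSpace ℂ K] {q : Form K} {C : ℝ}
  {ι : Type} [Fintype ι]

theorem q_smul (hq : IsForm q C) (c : ℂ) (ξ : K) :
    q (c • ξ) (c • ξ) = ((‖c‖ ^ 2 : ℝ) : ℂ) * q ξ ξ := by
  have h1 : q (c • ξ) ξ = conj c * q ξ ξ := by
    rw [hq.herm ξ (c • ξ), hq.smul, map_mul, ← hq.herm ξ ξ]
  rw [hq.smul, h1, ← mul_assoc, Complex.mul_conj']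
  push_cast
  rfl

theorem qa_smul (hq : IsForm q C) (c : ℂ) (v : HH ι K) :
    qa q (c • v) (c • v) = ((‖c‖ ^ 2 : ℝ) : ℂ) * qa q v v := by
  unfold qa
  rw [Finset.mul_sum]
  refine Finset.sum_congr rfl fun i _ => ?_
  rw [PiLp.smul_apply]
  exact q_smul hq c (v i)

theorem qa_im (hq : IsForm q C) (v : HH ι K) : (qa q v v).im = 0 := by
  unfold qa
  rw [Complex.im_sum]
  refine Finset.sum_eq_zero fun i _ => ?_
  have h := congrArg Complex.im (hq.herm (v i) (v i))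
  rw [Complex.conj_im] at h
  linarith

theorem qa_pos (hq : IsForm q C) (v : HH ι K) : 0 ≤ (qa q v v).re := by
  unfold qa
  rw [Complex.re_sum]
  exact Finset.sum_nonneg fun i _ => hq.pos (v i)

end forms

theorem prove_upC : S_mazur → S_real → S_upC := by
  intro hmaz _ B _ _ _ K _ _ _ w _ q C hq n Γ hΓ hcol Ω E κ _ Z C' hZ p D hD θ
  obtain ⟨F1, hF1⟩ : ∃ F1 : Ω → CStarMatrix (Fin n) (Fin n) B,
      F1 = fun ω => ∑ k, star (Z ω k) * Z ω k := ⟨_, rfl⟩
  obtain ⟨y0, hy0⟩ : ∃ y0 : Ω → κ → CStarMatrix (Fin n) (Fin n) B,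
      y0 = fun ω k => dgu (p ω) * Z ω k := ⟨_, rfl⟩
  obtain ⟨F2, hF2⟩ : ∃ F2 : Ω → ℂ, F2 = fun ω => ∑ k, qa q (amp w (Fin n) (y0 ω k) θ)
      (amp w (Fin n) (y0 ω k) θ) := ⟨_, rfl⟩
  have hgoal : (fun ω => ∑ k, qa q (amp w (Fin n) (dgu (p ω) * Z ω k) θ)
      (amp w (Fin n) (dgu (p ω) * Z ω k) θ)) = F2 := by
    rw [hF2, hy0]
  rw [hgoal]
  have hD' : ∀ φ : CStarMatrix (Fin n) (Fin n) B →L[ℂ] ℂ, E.E (fun ω => φ (F1 ω)) = φ D := by
    intro φ
    rw [hF1]
    exact hD φ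
  have hyy : ∀ ω k, star (y0 ω k) * y0 ω k = star (Z ω k) * Z ω k := by
    intro ω k
    rw [hy0]
    show star (dgu (p ω) * Z ω k) * (dgu (p ω) * Z ω k) = _
    rw [star_mul, mul_assoc, ← mul_assoc (star (dgu (p ω))), star_dgu_mul, one_mul]
  have hF1n : ∀ ω, ‖F1 ω‖ ≤ Fintype.card κ * (C' * C') := by
    intro ω
    rw [hF1]
    refine (norm_sum_le _ _).trans ?_
    have h1 : ∑ k, ‖star (Z ω k) * Z ω k‖ ≤ ∑ _k : κ, C' * C' := by
      refine Finset.sum_le_sum fun k _ => ?_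
      rw [CStarRing.norm_star_mul_self]
      exact mul_le_mul (hZ ω k) (hZ ω k) (norm_nonneg _) ((norm_nonneg _).trans (hZ ω k))
    refine h1.trans (le_of_eq ?_)
    rw [Finset.sum_const, Finset.card_univ, nsmul_eq_mul]
  have hF2re : ∀ ω, (F2 ω).re ≤ Γ * ‖F1 ω‖ * ‖θ‖ ^ 2 := by
    intro ω
    have h1 := hcol κ (y0 ω) θ
    simp only [hyy] at h1
    rw [hF2, hF1]
    simp only [Complex.re_sum]
    exact h1
  have hF2im : ∀ ω, (F2 ω).im = 0 := by
    intro ω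
    rw [hF2]
    simp only [Complex.im_sum]
    exact Finset.sum_eq_zero fun k _ => qa_im hq _
  have hF2pos : ∀ ω, 0 ≤ (F2 ω).re := by
    intro ω
    rw [hF2]
    simp only [Complex.re_sum]
    exact Finset.sum_nonneg fun k _ => qa_pos hq _
  have hF2n : ∀ ω, ‖F2 ω‖ ≤ Γ * (Fintype.card κ * (C' * C')) * ‖θ‖ ^ 2 := by
    intro ω
    have h1 : F2 ω = (((F2 ω).re : ℝ) : ℂ) := Complex.ext rfl (by rw [hF2im]; simp)
    rw [h1, Complex.norm_real, Real.norm_of_nonneg (hF2pos ω)]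
    refine (hF2re ω).trans ?_
    exact mul_le_mul_of_nonneg_right (mul_le_mul_of_nonneg_left (hF1n ω) hΓ) (sq_nonneg _)
  -- the main estimate
  have key : ∀ ε : ℝ, 0 < ε → (E.E F2).re ≤ Γ * (‖D‖ + ε) * ‖θ‖ ^ 2 + ε := by
    intro ε hε
    obtain ⟨N, t, s, ht, hsum, hnorm⟩ := hmaz Ω E (CStarMatrix (Fin n) (Fin n) B × ℂ)
      (fun ω => (F1 ω, F2 ω))
      (max (Fintype.card κ * (C' * C')) (Γ * (Fintype.card κ * (C' * C')) * ‖θ‖ ^ 2))
      (fun ω => by
        rw [Prod.norm_def]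
        exact max_le_max (hF1n ω) (hF2n ω))
      (D, E.E F2)
      (fun φ => by
        obtain ⟨c, hc⟩ : ∃ c : ℂ, φ (0, 1) = c := ⟨_, rfl⟩
        have hφ : ∀ (a : CStarMatrix (Fin n) (Fin n) B) (b : ℂ),
            φ (a, b) = (φ.comp (ContinuousLinearMap.inl ℂ
              (CStarMatrix (Fin n) (Fin n) B) ℂ)) a + b * c := by
          intro a b
          have h1 : ((a, b) : CStarMatrix (Fin n) (Fin n) B × ℂ) =
              (a, 0) + b • ((0, 1) : CStarMatrix (Fin n) (Fin n) B × ℂ) := by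
            ext <;> simp
          rw [h1, map_add, map_smul, smul_eq_mul, hc]
          rfl
        have e : (fun ω => φ (F1 ω, F2 ω)) = fun ω => (φ.comp (ContinuousLinearMap.inl ℂ
              (CStarMatrix (Fin n) (Fin n) B) ℂ)) (F1 ω) + F2 ω * c :=
          funext fun ω => hφ _ _
        show E.E (fun ω => φ (F1 ω, F2 ω)) = φ (D, E.E F2)
        rw [e, E.add', E.mul_const, hD', hφ]) ε hε
    have hn : ‖∑ i, (t i : ℂ) • (F1 (s i), F2 (s i)) - (D, E.E F2)‖ ≤ ε := hnorm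
    have hfst : ‖∑ i, (t i : ℂ) • F1 (s i) - D‖ ≤ ε := by
      refine le_trans (le_of_eq ?_) ((norm_fst_le _).trans hn)
      congr 1
      rw [Prod.fst_sub, Prod.fst_sum]
      rfl
    have hsnd : ‖∑ i, (t i : ℂ) * F2 (s i) - E.E F2‖ ≤ ε := by
      refine le_trans (le_of_eq ?_) ((norm_snd_le _).trans hn)
      congr 1
      rw [Prod.snd_sub, Prod.snd_sum]
      rfl
    -- the column inequality
    have hc := hcol (Fin N × κ) (fun x => ((√(t x.1) : ℝ) : ℂ) • y0 (s x.1) x.2) θ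
    have hl : ∑ x : Fin N × κ, (qa q
        (amp w (Fin n) (((√(t x.1) : ℝ) : ℂ) • y0 (s x.1) x.2) θ)
        (amp w (Fin n) (((√(t x.1) : ℝ) : ℂ) • y0 (s x.1) x.2) θ)).re =
        ∑ i, t i * (F2 (s i)).re := by
      rw [Fintype.sum_prod_type]
      refine Finset.sum_congr rfl fun i _ => ?_
      rw [hF2]
      simp only [Complex.re_sum]
      rw [Finset.mul_sum]
      refine Finset.sum_congr rfl fun k _ => ?_
      rw [map_smul, _root_.smul_apply, qa_smul hq, Complex.re_ofReal_mul,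
        Complex.norm_real, Real.norm_of_nonneg (Real.sqrt_nonneg _), Real.sq_sqrt (ht i)]
    have hr : ∑ x : Fin N × κ, star (((√(t x.1) : ℝ) : ℂ) • y0 (s x.1) x.2) *
        (((√(t x.1) : ℝ) : ℂ) • y0 (s x.1) x.2) = ∑ i, (t i : ℂ) • F1 (s i) := by
      rw [Fintype.sum_prod_type]
      refine Finset.sum_congr rfl fun i _ => ?_
      rw [hF1]
      simp only
      rw [Finset.smul_sum]
      refine Finset.sum_congr rfl fun k _ => ?_
      rw [star_smul, smul_mul_smul_comm, hyy]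
      congr 1
      rw [← starRingEnd_apply, Complex.conj_ofReal, ← Complex.ofReal_mul,
        Real.mul_self_sqrt (ht i)]
    rw [hl, hr] at hc
    have h1 : ‖∑ i, (t i : ℂ) • F1 (s i)‖ ≤ ‖D‖ + ε := by
      have := norm_add_le (∑ i, (t i : ℂ) • F1 (s i) - D) D
      rw [sub_add_cancel] at this
      linarith
    have h2 : ∑ i, t i * (F2 (s i)).re ≤ Γ * (‖D‖ + ε) * ‖θ‖ ^ 2 :=
      hc.trans (mul_le_mul_of_nonneg_right (mul_le_mul_of_nonneg_left h1 hΓ) (sq_nonneg _))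
    have h3 : |(∑ i, (t i : ℂ) * F2 (s i) - E.E F2).re| ≤ ε :=
      (Complex.abs_re_le_norm _).trans hsnd
    rw [Complex.sub_re, Complex.re_sum] at h3
    simp only [Complex.re_ofReal_mul] at h3
    have h4 := (abs_le.1 h3).1
    linarith
  refine le_of_forall_pos_le_add fun ε hε => ?_
  have hpos : 0 < Γ * ‖θ‖ ^ 2 + 1 := by positivity
  have h1 := key (ε / (Γ * ‖θ‖ ^ 2 + 1)) (by positivity)
  have h2 : Γ * (‖D‖ + ε / (Γ * ‖θ‖ ^ 2 + 1)) * ‖θ‖ ^ 2 + ε / (Γ * ‖θ‖ ^ 2 + 1) =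
      Γ * ‖D‖ * ‖θ‖ ^ 2 + (ε / (Γ * ‖θ‖ ^ 2 + 1)) * (Γ * ‖θ‖ ^ 2 + 1) := by ring
  rw [h2, div_mul_cancel₀ _ hpos.ne'] at h1
  exact h1

end Pool.Agent.Y43.D3
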